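import Pool.Agent.X211.CAS.Tools

/-! A scheme on a non-unimodular group with (T1) and without (T2). -/

set_option linter.unusedSectionVars false

namespace Pool.Agent.X211.Sch

open MeasureTheory Set Topology Filter

theorem supp_dirac {Y : Type*} [TopologicalSpace Y] [MeasurableSpace Y] [BorelSpace Y]
    [T1Space Y] (z : Y) : (Measure.dirac z).support = {z} := by
  refine Subset.antisymm ?_ ?_
  · refine Measure.support_subset_of_isClosed isClosed_singleton ?_
    rw [mem_ae_dirac_iff (measurableSet_singleton z)]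
    rfl
  · rintro _ rfl
    rw [Measure.mem_support_iff_forall]
    intro U hU
    rw [Measure.dirac_apply_of_mem (mem_of_mem_nhds hU)]
    exact one_pos

theorem hausCont_singleton {Z Y : Type*} [TopologicalSpace Z] [TopologicalSpace Y] {φ : Z → Y}
    (hφ : Continuous φ) : HausCont fun z => ({φ z} : Set Y) := by
  intro U hU
  have e1 : {z | ({φ z} : Set Y) ⊆ U} = φ ⁻¹' U := by ext z; simp
  have e2 : {z | (({φ z} : Set Y) ∩ U).Nonempty} = φ ⁻¹' U := by
    ext z
    simp [Set.singleton_inter_nonempty]
  rw [e1, e2]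
  exact ⟨hU.preimage hφ, hU.preimage hφ⟩

/-- The group law `(b, a) (b', a') = (b + b', a + e^b a')` on the plane. -/
noncomputable def mul (x y : ℝ × ℝ) : ℝ × ℝ := (x.1 + y.1, x.2 + Real.exp x.1 * y.2)

/-- the inverse -/
noncomputable def inv (x : ℝ × ℝ) : ℝ × ℝ := (-x.1, -(Real.exp (-x.1) * x.2))

theorem mul_assoc' (x y z : ℝ × ℝ) : mul (mul x y) z = mul x (mul y z) := by
  ext
  · simp [mul, add_assoc]
  · simp only [mul, Real.exp_add]; ring

theorem mul_e (x : ℝ × ℝ) : mul x (0, 0) = x := by ext <;> simp [mul]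
theorem e_mul (x : ℝ × ℝ) : mul (0, 0) x = x := by ext <;> simp [mul]
theorem inv_inv' (x : ℝ × ℝ) : inv (inv x) = x := by
  ext
  · simp [inv]
  · simp only [inv, neg_neg, mul_neg]
    rw [← mul_assoc, ← Real.exp_add]; simp
theorem mul_inv' (x : ℝ × ℝ) : mul x (inv x) = (0, 0) := by
  ext
  · simp [mul, inv]
  · simp only [mul, inv, mul_neg]
    rw [← mul_assoc, ← Real.exp_add]; simp
theorem inv_mul' (x : ℝ × ℝ) : mul (inv x) x = (0, 0) := by
  have := mul_inv' (inv x)
  rwa [inv_inv'] at this
theorem mul_eq_iff (x y z : ℝ × ℝ) : mul x y = z ↔ y = mul (inv x) z := by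
  constructor
  · rintro rfl; rw [← mul_assoc', inv_mul', e_mul]
  · rintro rfl; rw [← mul_assoc', mul_inv', e_mul]
theorem inv_mul_rev (x y : ℝ × ℝ) : inv (mul x y) = mul (inv y) (inv x) := by
  have h : mul (mul x y) (mul (inv y) (inv x)) = (0, 0) := by
    rw [mul_assoc', ← mul_assoc' y, mul_inv', e_mul, mul_inv']
  rw [(mul_eq_iff _ _ _).1 h, mul_e]

theorem mul_cont : Continuous fun p : (ℝ × ℝ) × (ℝ × ℝ) => mul p.1 p.2 := by
  unfold mul; fun_prop
theorem inv_cont : Continuous inv := by
  unfold inv; fun_prop

/-- the group as a hypergroup -/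
noncomputable def HG : Hypergroup (ℝ × ℝ) where
  conv x y := Measure.dirac (mul x y)
  prob x y := inferInstance
  supp_compact x y := by rw [supp_dirac]; exact isCompact_singleton
  supp_cont := by
    simp only [supp_dirac]
    exact hausCont_singleton mul_cont
  cont f hf _ := by
    simp only [integral_dirac]
    exact hf.comp mul_cont
  assoc x y z f _ _ := by simp only [integral_dirac, mul_assoc']
  e := (0, 0)
  conv_e x := by rw [mul_e]
  e_conv x := by rw [e_mul]
  inv := inv
  inv_cont := inv_cont
  inv_inv := inv_inv'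
  e_mem_supp x y := by
    rw [supp_dirac, mem_singleton_iff, eq_comm, mul_eq_iff, mul_e]
  map_inv x y := by
    have h : Measurable inv := inv_cont.measurable
    exact (Measure.map_dirac' h (mul x y)).trans (by rw [inv_mul_rev])

/-- the scheme, without the measure -/
noncomputable def PG : PreCAS (ℝ × ℝ) (ℝ × ℝ) where
  H := HG
  K x h := Measure.dirac (mul x h)
  prob x h := inferInstance
  cont f hf _ := by
    simp only [integral_dirac]
    exact hf.comp mul_cont
  supp_compact x y := by rw [supp_dirac]; exact isCompact_singleton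
  supp_cont := by
    simp only [supp_dirac]
    exact hausCont_singleton mul_cont
  proj x y := mul (inv x) y
  proj_cont := mul_cont.comp (Continuous.prodMk (inv_cont.comp continuous_fst) continuous_snd)
  mem_supp x y h := by rw [supp_dirac, mem_singleton_iff, eq_comm, mul_eq_iff]
  comp x h₁ h₂ f _ _ := by simp only [integral_dirac, HG, mul_assoc']
  K_e x := by rw [show HG.e = (0, 0) from rfl, mul_e]

theorem PG_T (h : ℝ × ℝ) (f : ℝ × ℝ → ℝ) (x : ℝ × ℝ) : PG.T h f x = f (mul x h) := by
  show ∫ y, f y ∂(Measure.dirac (mul x h)) = _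
  rw [integral_dirac]

theorem mp_right (h : ℝ × ℝ) : MeasurePreserving (fun x => mul x h)
    (volume : Measure (ℝ × ℝ)) volume := by
  refine MeasurePreserving.skew_product (f := fun b : ℝ => b + h.1)
    (g := fun (b a : ℝ) => a + Real.exp b * h.2) (measurePreserving_add_right volume h.1) ?_ ?_
  · exact Continuous.measurable (by unfold Function.uncurry; fun_prop)
  · exact Eventually.of_forall fun b => (measurePreserving_add_right volume _).map_eq

theorem PG_adj : PG.Adj (volume : Measure (ℝ × ℝ)) := by
  refine ⟨inferInstance, inferInstance, fun h f g hf _ hg _ => ?_⟩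
  simp only [PG_T]
  have e := (mp_right h).map_eq
  have c1 : Continuous fun x => f (mul x (inv h)) * g x :=
    (hf.comp (mul_cont.comp (Continuous.prodMk continuous_id continuous_const))).mul hg
  show ∫ x, f (mul x (inv h)) * g x = _
  conv_lhs => rw [← e]
  have cr : Continuous fun x => mul x h :=
    mul_cont.comp (Continuous.prodMk continuous_id continuous_const)
  rw [integral_map cr.aemeasurable c1.aestronglyMeasurable]
  congr 1 with x
  rw [mul_assoc', mul_inv', mul_e]

/-- the scheme of the group -/
noncomputable def SG : CAS (ℝ × ℝ) (ℝ × ℝ) := { PG with exists_adj := ⟨_, PG_adj⟩ }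

theorem SG_T1 : SG.T1 := by
  intro h x f _ _ y
  show ∫ z, f z ∂(Measure.dirac (mul (mul (inv x) y) h)) = PG.T h (fun z => f (mul (inv x) z)) y
  rw [integral_dirac, PG_T, mul_assoc']

/-- the tent function -/
noncomputable def tent (a : ℝ) : ℝ := max 0 (1 - |a|)

theorem tent_id (a : ℝ) : tent (1 / 2 * a) = 1 / 2 * tent (a + -1) + tent a + 1 / 2 * tent (a + 1) := by
  unfold tent
  rcases le_total a 0 with h0 | h0
  · rcases le_total a (-1) with h1 | h1
    · rcases le_total a (-2) with h2 | h2
      · rw [abs_of_nonpos (by linarith), abs_of_nonpos (by linarith), abs_of_nonpos h0,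
          abs_of_nonpos (by linarith), max_eq_left (by linarith), max_eq_left (by linarith),
          max_eq_left (by linarith), max_eq_left (by linarith)]
        ring
      · rw [abs_of_nonpos (by linarith), abs_of_nonpos (by linarith), abs_of_nonpos h0,
          abs_of_nonpos (by linarith), max_eq_right (by linarith), max_eq_left (by linarith),
          max_eq_left (by linarith), max_eq_right (by linarith)]
        ring
    · rw [abs_of_nonpos (by linarith), abs_of_nonpos (by linarith), abs_of_nonpos h0,
          abs_of_nonneg (by linarith), max_eq_right (by linarith), max_eq_left (by linarith),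
          max_eq_right (by linarith), max_eq_right (by linarith)]
      ring
  · rcases le_total a 1 with h1 | h1
    · rw [abs_of_nonneg (by linarith), abs_of_nonpos (by linarith), abs_of_nonneg h0,
          abs_of_nonneg (by linarith), max_eq_right (by linarith), max_eq_right (by linarith),
          max_eq_right (by linarith), max_eq_left (by linarith)]
      ring
    · rcases le_total a 2 with h2 | h2
      · rw [abs_of_nonneg (by linarith), abs_of_nonneg (by linarith), abs_of_nonneg h0,
          abs_of_nonneg (by linarith), max_eq_right (by linarith), max_eq_right (by linarith),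
          max_eq_left (by linarith), max_eq_left (by linarith)]
        ring
      · rw [abs_of_nonneg (by linarith), abs_of_nonneg (by linarith), abs_of_nonneg h0,
          abs_of_nonneg (by linarith), max_eq_left (by linarith), max_eq_left (by linarith),
          max_eq_left (by linarith), max_eq_left (by linarith)]
        ring

theorem tent_cont : Continuous tent := by unfold tent; fun_prop

/-- the test function -/
noncomputable def ff (p : ℝ × ℝ) : ℝ := tent p.1 * tent p.2

theorem ff_cont : Continuous ff := by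
  unfold ff
  exact (tent_cont.comp continuous_fst).mul (tent_cont.comp continuous_snd)

theorem tent_eq_zero {a : ℝ} (h : 1 < |a|) : tent a = 0 := max_eq_left (by linarith)

theorem ff_cs : HasCompactSupport ff := by
  refine HasCompactSupport.intro ((isCompact_Icc (a := (-1 : ℝ)) (b := 1)).prod
    (isCompact_Icc (a := (-1 : ℝ)) (b := 1))) fun p hp => ?_
  unfold ff
  by_contra h
  have h1 : tent p.1 ≠ 0 := left_ne_zero_of_mul h
  have h2 : tent p.2 ≠ 0 := right_ne_zero_of_mul h
  have k1 : |p.1| ≤ 1 := not_lt.1 fun hh => h1 (tent_eq_zero hh)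
  have k2 : |p.2| ≤ 1 := not_lt.1 fun hh => h2 (tent_eq_zero hh)
  exact hp ⟨abs_le.1 k1, abs_le.1 k2⟩

theorem cs_comp_left {f : ℝ × ℝ → ℝ} (hfc : HasCompactSupport f) (z : ℝ × ℝ) :
    HasCompactSupport fun y => f (mul z y) := by
  refine HasCompactSupport.intro (hfc.isCompact.image (f := fun y => mul (inv z) y)
    (mul_cont.comp (Continuous.prodMk continuous_const continuous_id))) fun y hy => ?_
  by_contra h
  exact hy ⟨mul z y, subset_tsupport f h, by
    show mul (inv z) (mul z y) = y
    rw [← mul_assoc', inv_mul', e_mul]⟩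

theorem cs_comp_right {f : ℝ × ℝ → ℝ} (hfc : HasCompactSupport f) (z : ℝ × ℝ) :
    HasCompactSupport fun y => f (mul y z) := by
  refine HasCompactSupport.intro (hfc.isCompact.image (f := fun y => mul y (inv z))
    (mul_cont.comp (Continuous.prodMk continuous_id continuous_const))) fun y hy => ?_
  by_contra h
  exact hy ⟨mul y z, subset_tsupport f h, by
    show mul (mul y z) (inv z) = y
    rw [mul_assoc', mul_inv', mul_e]⟩

theorem SG_not_T2For {ωX ωD : Measure (ℝ × ℝ)} (hX : SG.Adj ωX) : ¬ SG.T2For ωX ωD := by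
  intro h2
  obtain ⟨hX1, hX2, hX3⟩ := hX
  have cl : ∀ z, Continuous fun y => mul z y := fun z =>
    mul_cont.comp (Continuous.prodMk continuous_const continuous_id)
  have cr : ∀ z, Continuous fun y => mul y z := fun z =>
    mul_cont.comp (Continuous.prodMk continuous_id continuous_const)
  have hT : ∀ h (f : ℝ × ℝ → ℝ) x, SG.T h f x = f (mul x h) := fun h f x => PG_T h f x
  -- left invariance
  have L0 : ∀ f : ℝ × ℝ → ℝ, Continuous f → HasCompactSupport f → ∀ x,
      ∫ h, f h ∂ωD = ∫ y, f (mul (inv x) y) ∂ωX := by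
    intro f hf hfc x
    obtain ⟨b, hb, hbc, hb1, -, -, -⟩ := exists_bump (hfc.isCompact.image (cl x)) isOpen_univ
      (subset_univ _)
    have h := h2 f hf hfc b hb hbc x
    have e1 : ∀ h, SG.T h b x * f h = f h := by
      intro h
      rw [hT]
      by_cases hh : f h = 0
      · simp [hh]
      · rw [hb1 _ ⟨h, subset_tsupport f hh, rfl⟩, one_mul]
    have e2 : ∀ y, f (SG.proj x y) * b y = f (mul (inv x) y) := by
      intro y
      show f (mul (inv x) y) * b y = _
      by_cases hh : f (mul (inv x) y) = 0
      · simp [hh]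
      · rw [hb1 y ⟨mul (inv x) y, subset_tsupport f hh, by
          show mul x (mul (inv x) y) = y
          rw [← mul_assoc', mul_inv', e_mul]⟩, mul_one]
    simp only [e1, e2] at h
    exact h
  have L : ∀ f : ℝ × ℝ → ℝ, Continuous f → HasCompactSupport f → ∀ z,
      ∫ y, f (mul z y) ∂ωX = ∫ y, f y ∂ωX := by
    intro f hf hfc z
    have a1 := L0 f hf hfc (inv z)
    have a2 := L0 f hf hfc (inv (0, 0))
    simp only [inv_inv', e_mul] at a1 a2
    rw [← a1, ← a2]
  -- right invariance
  have R : ∀ g : ℝ × ℝ → ℝ, Continuous g → HasCompactSupport g → ∀ h,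
      ∫ y, g (mul y h) ∂ωX = ∫ y, g y ∂ωX := by
    intro g hg hgc h
    have hgc' := cs_comp_right hgc h
    obtain ⟨b, hb, hbc, hb1, -, -, -⟩ := exists_bump
      (hgc'.isCompact.union (hgc.isCompact.image (cr (inv h)))) isOpen_univ (subset_univ _)
    have h3 := hX3 h b g hb hbc hg hgc
    have e1 : ∀ x, SG.T (SG.H.inv h) b x * g x = g x := by
      intro x
      rw [hT]
      show b (mul x (inv h)) * g x = g x
      by_cases hh : g x = 0
      · simp [hh]
      · rw [hb1 _ (Or.inr ⟨x, subset_tsupport g hh, rfl⟩), one_mul]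
    have e2 : ∀ x, b x * SG.T h g x = g (mul x h) := by
      intro x
      rw [hT]
      by_cases hh : g (mul x h) = 0
      · simp [hh]
      · rw [hb1 _ (Or.inl (subset_tsupport (fun y => g (mul y h)) hh)), one_mul]
    have h3' : ∫ x, SG.T (SG.H.inv h) b x * g x ∂ωX = ∫ x, b x * SG.T h g x ∂ωX := h3
    simp only [e1, e2] at h3'
    exact h3'.symm
  have I1 : Integrable ff ωX := ff_cont.integrable_of_hasCompactSupport ff_cs
  have hpos : 0 < ∫ y, ff y ∂ωX := by
    refine Continuous.integral_pos_of_hasCompactSupport_nonneg_nonzero (x := ((0 : ℝ), (0 : ℝ)))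
      ff_cont ff_cs (fun p => mul_nonneg (le_max_left _ _) (le_max_left _ _)) ?_
    simp [ff, tent]
  -- translations
  have tr1 : ∀ s : ℝ, ∫ y, ff (y.1, y.2 + s) ∂ωX = ∫ y, ff y ∂ωX := by
    intro s
    have := L ff ff_cont ff_cs (0, s)
    rw [← this]
    congr 1 with y
    congr 1
    ext
    · simp [mul]
    · simp [mul, add_comm]
  have itr : ∀ s : ℝ, Integrable (fun y : ℝ × ℝ => ff (y.1, y.2 + s)) ωX := by
    intro s
    have c : Continuous fun y : ℝ × ℝ => ff (mul (0, s) y) := ff_cont.comp (cl _)
    have := c.integrable_of_hasCompactSupport (cs_comp_left ff_cs (0, s)) (μ := ωX)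
    refine this.congr (Eventually.of_forall fun y => ?_)
    show ff (mul (0, s) y) = _
    congr 1
    ext
    · simp [mul]
    · simp [mul, add_comm]
  -- dilation
  have dil : ∫ y, ff (y.1, 1 / 2 * y.2) ∂ωX = ∫ y, ff y ∂ωX := by
    have a := L ff ff_cont ff_cs (Real.log (1 / 2), 0)
    have b := R (fun y => ff (mul (Real.log (1 / 2), 0) y)) (ff_cont.comp (cl _))
      (cs_comp_left ff_cs _) (-Real.log (1 / 2), 0)
    rw [← a, ← b]
    congr 1 with y
    congr 1
    ext
    · simp [mul]
    · simp only [mul]
      rw [Real.exp_log (by norm_num)]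
      ring
  have key : ∫ y, ff (y.1, 1 / 2 * y.2) ∂ωX
      = 1 / 2 * (∫ y, ff (y.1, y.2 + -1) ∂ωX) + (∫ y, ff y ∂ωX)
        + 1 / 2 * ∫ y, ff (y.1, y.2 + 1) ∂ωX := by
    have j1 : Integrable (fun y : ℝ × ℝ => 1 / 2 * ff (y.1, y.2 + -1)) ωX := (itr _).const_mul _
    have j2 : Integrable (fun y : ℝ × ℝ => 1 / 2 * ff (y.1, y.2 + -1) + ff y) ωX := j1.add I1
    have j3 : Integrable (fun y : ℝ × ℝ => 1 / 2 * ff (y.1, y.2 + 1)) ωX := (itr _).const_mul _
    rw [← integral_const_mul, ← integral_const_mul, ← integral_add j1 I1,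
      ← integral_add j2 j3]
    congr 1 with y
    show tent y.1 * tent (1 / 2 * y.2) = _
    rw [tent_id]
    simp only [ff]
    ring
  rw [dil, tr1, tr1] at key
  linarith

theorem SG_not_T2 : ¬ SG.T2 := by
  rintro ⟨ωX, ωD, hX, -, h⟩
  exact SG_not_T2For hX h

end Pool.Agent.X211.Sch
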