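import Mathlib

/-!
# Continuous association schemes (MP_3f01e7_al): definitions

All spaces are second countable, locally compact and Hausdorff, with their Borel sets.  On such a
space every Borel measure which is finite on compact sets is a Radon measure.
-/

namespace Pool.Agent.X211.Sch

open MeasureTheory Set Topology Filter

/-- A map `S` from a topological space to the compact subsets of `Y` is continuous for the
Hausdorff (Vietoris) topology: for every open `U` the conditions `S z ⊆ U` and `S z ∩ U ≠ ∅`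
are open conditions on `z`. -/
def HausCont {Z Y : Type*} [TopologicalSpace Z] [TopologicalSpace Y] (S : Z → Set Y) : Prop :=
  ∀ U : Set Y, IsOpen U → IsOpen {z | S z ⊆ U} ∧ IsOpen {z | (S z ∩ U).Nonempty}

/-- A hypergroup on `D`, given by the convolutions `conv x y = δ_x * δ_y` of point masses. -/
structure Hypergroup (D : Type*) [TopologicalSpace D] [MeasurableSpace D] where
  /-- the measure `δ_x * δ_y` -/
  conv : D → D → Measure D
  /-- it is a probability measure, -/
  prob : ∀ x y, IsProbabilityMeasure (conv x y)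
  /-- with compact support, -/
  supp_compact : ∀ x y, IsCompact (conv x y).support
  /-- which depends continuously on `(x, y)`, -/
  supp_cont : HausCont fun p : D × D => (conv p.1 p.2).support
  /-- and `δ_x * δ_y` depends weakly continuously on `(x, y)`. -/
  cont : ∀ f : D → ℝ, Continuous f → (∃ C, ∀ x, |f x| ≤ C) →
    Continuous fun p : D × D => ∫ z, f z ∂(conv p.1 p.2)
  /-- The convolution is associative: `(δ_x * δ_y) * δ_z = δ_x * (δ_y * δ_z)`. -/
  assoc : ∀ x y z, ∀ f : D → ℝ, Continuous f → (∃ C, ∀ x, |f x| ≤ C) →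
    ∫ u, (∫ t, f t ∂(conv u z)) ∂(conv x y) = ∫ v, (∫ t, f t ∂(conv x v)) ∂(conv y z)
  /-- the neutral element -/
  e : D
  conv_e : ∀ x, conv x e = Measure.dirac x
  e_conv : ∀ x, conv e x = Measure.dirac x
  /-- the involution -/
  inv : D → D
  inv_cont : Continuous inv
  inv_inv : ∀ x, inv (inv x) = x
  e_mem_supp : ∀ x y, e ∈ (conv x y).support ↔ y = inv x
  map_inv : ∀ x y, (conv x y).map inv = conv (inv y) (inv x)

/-- `ω` is a left Haar measure of the hypergroup: a nonzero Radon measure with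
`δ_x * ω = ω` for all `x`. -/
def Hypergroup.IsLeftHaar {D : Type*} [TopologicalSpace D] [MeasurableSpace D]
    (H : Hypergroup D) (ω : Measure D) : Prop :=
  IsFiniteMeasureOnCompacts ω ∧ ω ≠ 0 ∧
    ∀ x, ∀ f : D → ℝ, Continuous f → HasCompactSupport f → (∀ y, 0 ≤ f y) →
      ∫⁻ y, ENNReal.ofReal (∫ z, f z ∂(H.conv x y)) ∂ω = ∫⁻ y, ENNReal.ofReal (f y) ∂ω

/-- The data of a continuous association scheme, with the properties 1, 2, 3. -/
structure PreCAS (X D : Type*) [TopologicalSpace X] [MeasurableSpace X]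
    [TopologicalSpace D] [MeasurableSpace D] where
  /-- the hypergroup structure of `D` -/
  H : Hypergroup D
  /-- the measures `K_h(x, ·)` -/
  K : X → D → Measure X
  prob : ∀ x h, IsProbabilityMeasure (K x h)
  cont : ∀ f : X → ℝ, Continuous f → (∃ C, ∀ x, |f x| ≤ C) →
    Continuous fun p : X × D => ∫ y, f y ∂(K p.1 p.2)
  supp_compact : ∀ x h, IsCompact (K x h).support
  supp_cont : HausCont fun p : X × D => (K p.1 p.2).support
  /-- the projection `π` -/
  proj : X → X → D
  proj_cont : Continuous fun p : X × X => proj p.1 p.2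
  mem_supp : ∀ x y h, y ∈ (K x h).support ↔ h = proj x y
  comp : ∀ x h₁ h₂, ∀ f : X → ℝ, Continuous f → (∃ C, ∀ x, |f x| ≤ C) →
    ∫ y, (∫ z, f z ∂(K y h₂)) ∂(K x h₁) = ∫ h, (∫ z, f z ∂(K x h)) ∂(H.conv h₁ h₂)
  K_e : ∀ x, K x H.e = Measure.dirac x

variable {X D : Type*} [TopologicalSpace X] [MeasurableSpace X] [TopologicalSpace D]
  [MeasurableSpace D]

/-- `T_h f (x) = ∫ f(y) K_h(x, dy)` -/
noncomputable def PreCAS.T (S : PreCAS X D) (h : D) (f : X → ℝ) (x : X) : ℝ :=
  ∫ y, f y ∂(S.K x h)

/-- Property 4 for the measure `ω` on `X`: a positive Radon measure with full support for which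
`T_{inv h}` is the adjoint of `T_h`. -/
def PreCAS.Adj (S : PreCAS X D) (ω : Measure X) : Prop :=
  IsFiniteMeasureOnCompacts ω ∧ ω.IsOpenPosMeasure ∧
    ∀ h, ∀ f g : X → ℝ, Continuous f → HasCompactSupport f → Continuous g →
      HasCompactSupport g →
      ∫ x, S.T (S.H.inv h) f x * g x ∂ω = ∫ x, f x * S.T h g x ∂ω

/-- Continuous association schemes. -/
structure CAS (X D : Type*) [TopologicalSpace X] [MeasurableSpace X]
    [TopologicalSpace D] [MeasurableSpace D] extends PreCAS X D where
  exists_adj : ∃ ω, toPreCAS.Adj ω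

/-- The scheme is commutative. -/
def CAS.Comm (S : CAS X D) : Prop := ∀ x y, S.H.conv x y = S.H.conv y x

/-- `f_h (l) = f (l * h)` -/
noncomputable def Hypergroup.tr (H : Hypergroup D) (f : D → ℝ) (h l : D) : ℝ :=
  ∫ z, f z ∂(H.conv l h)

/-- Property (T1). -/
def CAS.T1 (S : CAS X D) : Prop :=
  ∀ (h : D) (x : X) (f : D → ℝ), Continuous f → HasCompactSupport f →
    ∀ y, S.H.tr f h (S.proj x y) = S.T h (fun z => f (S.proj x z)) y

/-- The identity `T_f = T^{f ∘ π}` of (T2), for the measures `ωX` and `ωD`. -/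
def CAS.T2For (S : CAS X D) (ωX : Measure X) (ωD : Measure D) : Prop :=
  ∀ f : D → ℝ, Continuous f → HasCompactSupport f →
    ∀ g : X → ℝ, Continuous g → HasCompactSupport g →
      ∀ x, ∫ h, S.T h g x * f h ∂ωD = ∫ y, f (S.proj x y) * g y ∂ωX

/-- Property (T2). -/
def CAS.T2 (S : CAS X D) : Prop :=
  ∃ (ωX : Measure X) (ωD : Measure D), S.Adj ωX ∧ S.H.IsLeftHaar ωD ∧ S.T2For ωX ωD

end Pool.Agent.X211.Sch
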