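import Pool.Agent.X211.CAS.Main

/-! Commutative schemes: (T1) implies (T2), end of the proof. -/

set_option linter.unusedSectionVars false

namespace Pool.Agent.X211.Sch

open MeasureTheory Set Topology Filter

variable {X D : Type*} [TopologicalSpace X] [MeasurableSpace X] [BorelSpace X]
  [SecondCountableTopology X] [LocallyCompactSpace X] [T2Space X]
  [TopologicalSpace D] [MeasurableSpace D] [BorelSpace D]
  [SecondCountableTopology D] [LocallyCompactSpace D] [T2Space D]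

variable {S : CAS X D}

/-- the limit of the main identity -/
theorem limit_id (hcomm : S.Comm) (h1 : S.T1) {ω : Measure X} (hω : S.Adj ω) (x₀ x : X)
    {c : ℝ} (hc : 0 < c)
    (hcx : ∀ F : D → ℝ, Continuous F → HasCompactSupport F → (∀ y, 0 ≤ F y) →
      ∫ y, F (S.proj x y) ∂ω = c * ∫ l, F l ∂(nu S.toPreCAS ω x₀))
    {f : D → ℝ} (hf : Continuous f)
    (hfc : HasCompactSupport f) {g : X → ℝ} (hg : Continuous g) (hgc : HasCompactSupport g) :
    c * (∫ h, S.T (S.H.inv h) g x * f h ∂(nu S.toPreCAS ω x₀))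
      = ∫ y, g y * S.H.tr f (S.H.inv (S.proj x y)) S.H.e ∂ω := by
  have hω1 := hω.1
  have hν := nu_finite S.toPreCAS (ω := ω) x₀
  set ν := nu S.toPreCAS ω x₀ with hνd
  have cT : Continuous fun p : X × D => S.T p.2 g p.1 := T_cont S.toPreCAS hg hgc
  have cT' : Continuous fun p : X × D => S.T (S.H.inv p.2) g p.1 :=
    cT.comp (Continuous.prodMk continuous_fst (S.H.inv_cont.comp continuous_snd))
  have cpr : Continuous fun y => S.proj x y := proj_contR S.toPreCAS x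
  have ctr : Continuous fun p : D × D => S.H.tr f p.2 p.1 := tr_cont (S := S.toPreCAS) hf hfc
  have cΦ : Continuous fun y => ∫ h, S.T (S.H.inv h) g y * f h ∂ν := by
    refine cont_param (k := fun y h => S.T (S.H.inv h) g y * f h)
      (cT'.mul (hf.comp continuous_snd)) fun C _ => ⟨tsupport f, hfc.isCompact, ?_⟩
    intro y _ h hh
    simp [image_eq_zero_of_notMem_tsupport hh]
  have cΨ : Continuous fun h => ∫ y, g y * S.H.tr f (S.H.inv (S.proj x y)) h ∂ω := by
    refine cont_param (k := fun h y => g y * S.H.tr f (S.H.inv (S.proj x y)) h)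
      ((hg.comp continuous_snd).mul (ctr.comp (Continuous.prodMk continuous_fst
        (S.H.inv_cont.comp (cpr.comp continuous_snd))))) fun C _ => ⟨tsupport g, hgc.isCompact, ?_⟩
    intro h _ y hh
    simp [image_eq_zero_of_notMem_tsupport hh]
  set Φ : X → ℝ := fun y => ∫ h, S.T (S.H.inv h) g y * f h ∂ν with hΦ
  set Ψ : D → ℝ := fun h => ∫ y, g y * S.H.tr f (S.H.inv (S.proj x y)) h ∂ω with hΨ
  show c * Φ x = Ψ S.H.e
  have key : ∀ ε : ℝ, 0 < ε → |c * Φ x - Ψ S.H.e| ≤ ε * (c + 1) := by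
    intro ε hε
    have o1 : IsOpen {y | |Φ y - Φ x| < ε} :=
      isOpen_lt (cΦ.sub continuous_const).abs continuous_const
    have o2 : IsOpen {h | |Ψ h - Ψ S.H.e| < ε} :=
      isOpen_lt (cΨ.sub continuous_const).abs continuous_const
    obtain ⟨U, hU, heU, hUV⟩ := shrink S.toPreCAS x o1 (by simpa using hε)
    obtain ⟨b, hb, hbc, hb1, hb0, -, hbU⟩ := exists_bump (isCompact_singleton (x := S.H.e))
      (hU.inter o2) (singleton_subset_iff.2 ⟨heU, by simpa using hε⟩)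
    have hbp : 0 < ∫ l, b l ∂ν := nu_pos hω x₀ hb hbc hb0 (by rw [hb1 _ rfl]; exact one_ne_zero)
    have a1 := avg_le (μ := ω) (w := fun y => b (S.proj x y)) (φ := Φ) (a := Φ x) (ε := ε)
      (hb.comp cpr) (comp_cs S.toPreCAS hbc x) cΦ (fun y => hb0 _) (fun y hy => by
        have : S.proj x y ∈ U := by
          by_contra hn
          exact hy (hbU _ fun hh => hn hh.1)
        exact (hUV y this).le)
    have a2 := avg_le (μ := ν) (w := b) (φ := Ψ) (a := Ψ S.H.e) (ε := ε)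
      hb hbc cΨ hb0 (fun h hh => by
        have : h ∈ {h | |Ψ h - Ψ S.H.e| < ε} := by
          by_contra hn
          exact hh (hbU _ fun hk => hn hk.2)
        exact this.le)
    have e1 := main_id hcomm h1 hω x₀ x hb hbc hf hfc hg hgc
    rw [← hνd] at e1
    have e1' : ∫ y, b (S.proj x y) * Φ y ∂ω = ∫ h, b h * Ψ h ∂ν := e1
    rw [hcx b hb hbc hb0, e1'] at a1
    have e2 : |c * Φ x - Ψ S.H.e| * ∫ l, b l ∂ν ≤ ε * (c + 1) * ∫ l, b l ∂ν := by
      rw [← abs_of_pos hbp, ← abs_mul, abs_of_pos hbp]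
      have : (c * Φ x - Ψ S.H.e) * ∫ l, b l ∂ν
          = (∫ h, b h * Ψ h ∂ν - Ψ S.H.e * ∫ l, b l ∂ν)
            - (∫ h, b h * Ψ h ∂ν - Φ x * (c * ∫ l, b l ∂ν)) := by ring
      rw [this]
      refine (abs_sub _ _).trans ?_
      nlinarith [a1, a2]
    exact le_of_mul_le_mul_right e2 hbp
  by_contra hne
  have hd : 0 < |c * Φ x - Ψ S.H.e| := abs_pos.2 (sub_ne_zero.2 hne)
  have := key (|c * Φ x - Ψ S.H.e| / (2 * (c + 1))) (by positivity)
  have h3 : |c * Φ x - Ψ S.H.e| / (2 * (c + 1)) * (c + 1) = |c * Φ x - Ψ S.H.e| / 2 := by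
    field_simp
  rw [h3] at this
  linarith

/-- `T^{f ∘ π} = c(x) T_f` -/
theorem T2_c (hcomm : S.Comm) (h1 : S.T1) {ω : Measure X} (hω : S.Adj ω) (x₀ x : X)
    {c : ℝ} (hc : 0 < c)
    (hcx : ∀ F : D → ℝ, Continuous F → HasCompactSupport F → (∀ y, 0 ≤ F y) →
      ∫ y, F (S.proj x y) ∂ω = c * ∫ l, F l ∂(nu S.toPreCAS ω x₀))
    {f : D → ℝ} (hf : Continuous f)
    (hfc : HasCompactSupport f) {g : X → ℝ} (hg : Continuous g) (hgc : HasCompactSupport g) :
    c * (∫ h, S.T h g x * f h ∂(nu S.toPreCAS ω x₀)) = ∫ y, f (S.proj x y) * g y ∂ω := by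
  have hfi : Continuous fun l => f (S.H.inv l) := hf.comp S.H.inv_cont
  have hfic : HasCompactSupport fun l => f (S.H.inv l) := by
    refine HasCompactSupport.intro (hfc.image S.H.inv_cont) fun l hl => ?_
    by_contra h0
    exact hl ⟨S.H.inv l, subset_tsupport f h0, S.H.inv_inv l⟩
  have h := limit_id hcomm h1 hω x₀ x hc hcx hfi hfic hg hgc
  have cT : Continuous fun l => S.T l g x :=
    (T_cont S.toPreCAS hg hgc).comp (Continuous.prodMk continuous_const continuous_id)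
  have e1 := int_inv hcomm h1 hω x₀ (k := fun l => S.T l g x * f l) (cT.mul hf)
  have e1' : ∫ l, S.T (S.H.inv l) g x * f (S.H.inv l) ∂(nu S.toPreCAS ω x₀)
    = ∫ l, S.T l g x * f l ∂(nu S.toPreCAS ω x₀) := e1
  rw [e1'] at h
  rw [h]
  congr 1 with y
  rw [Hypergroup.tr, S.H.e_conv, integral_dirac, S.H.inv_inv, mul_comm]

theorem T_zero_of {g : X → ℝ} {h : D} {x : X}
    (hh : ∀ y, S.proj x y = h → g y = 0) : S.T h g x = 0 := by
  have : S.T h g x = S.T h (fun _ => 0) x := T_congr S.toPreCAS fun y hy => by simpa using hh y hy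
  rw [this]
  simp [PreCAS.T]

/-- the integral of `T_h g (x)` over all `h` -/
theorem M_eq (hcomm : S.Comm) (h1 : S.T1) {ω : Measure X} (hω : S.Adj ω) (x₀ x : X)
    {c : ℝ} (hc : 0 < c)
    (hcx : ∀ F : D → ℝ, Continuous F → HasCompactSupport F → (∀ y, 0 ≤ F y) →
      ∫ y, F (S.proj x y) ∂ω = c * ∫ l, F l ∂(nu S.toPreCAS ω x₀))
    {g : X → ℝ} (hg : Continuous g) (hgc : HasCompactSupport g) :
    c * (∫ h, S.T h g x ∂(nu S.toPreCAS ω x₀)) = ∫ y, g y ∂ω := by
  obtain ⟨b, hb, hbc, hb1, hb0, -, -⟩ := exists_bump (hgc.isCompact.image (proj_contR S.toPreCAS x))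
    isOpen_univ (subset_univ _)
  have h := T2_c hcomm h1 hω x₀ x hc hcx hb hbc hg hgc
  have e1 : ∀ l, S.T l g x * b l = S.T l g x := by
    intro l
    by_cases hl : ∃ y, S.proj x y = l ∧ g y ≠ 0
    · obtain ⟨y, hy, hgy⟩ := hl
      rw [hb1 l ⟨y, subset_tsupport g hgy, hy⟩, mul_one]
    · push Not at hl
      rw [T_zero_of hl, zero_mul]
  have e2 : ∀ y, b (S.proj x y) * g y = g y := by
    intro y
    by_cases hy : g y = 0
    · simp [hy]
    · rw [hb1 _ ⟨y, subset_tsupport g hy, rfl⟩, one_mul]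
  simp only [e1, e2] at h
  exact h

theorem M_supp {g : X → ℝ} (hgc : HasCompactSupport g) {C : Set X} (hC : IsCompact C) :
    ∃ K : Set D, IsCompact K ∧ ∀ x ∈ C, ∀ h, h ∉ K → S.T h g x = 0 := by
  refine ⟨(fun p : X × X => S.proj p.1 p.2) '' (C ×ˢ tsupport g),
    (hC.prod hgc.isCompact).image S.proj_cont, fun x hx h hh => T_zero_of fun y hy => ?_⟩
  by_contra hgy
  exact hh ⟨(x, y), ⟨hx, subset_tsupport g hgy⟩, hy⟩

theorem M_cont {ω : Measure X} (hω : S.Adj ω) (x₀ : X) {g : X → ℝ} (hg : Continuous g)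
    (hgc : HasCompactSupport g) :
    Continuous fun x => ∫ h, S.T h g x ∂(nu S.toPreCAS ω x₀) := by
  have hω1 := hω.1
  have hν := nu_finite S.toPreCAS (ω := ω) x₀
  exact cont_param (k := fun x h => S.T h g x) (T_cont S.toPreCAS hg hgc) fun C hC =>
    M_supp hgc hC

theorem M_symm (hcomm : S.Comm) (h1 : S.T1) {ω : Measure X} (hω : S.Adj ω) (x₀ : X)
    {f g : X → ℝ} (hf : Continuous f) (hfc : HasCompactSupport f)
    (hg : Continuous g) (hgc : HasCompactSupport g) :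
    ∫ x, f x * (∫ h, S.T h g x ∂(nu S.toPreCAS ω x₀)) ∂ω
      = ∫ x, g x * (∫ h, S.T h f x ∂(nu S.toPreCAS ω x₀)) ∂ω := by
  have hω1 := hω.1
  have hν := nu_finite S.toPreCAS (ω := ω) x₀
  have cTg : Continuous fun p : X × D => S.T p.2 g p.1 := T_cont S.toPreCAS hg hgc
  have cTf : Continuous fun p : X × D => S.T p.2 f p.1 := T_cont S.toPreCAS hf hfc
  have cTf' : Continuous fun p : X × D => S.T (S.H.inv p.2) f p.1 :=
    cTf.comp (Continuous.prodMk continuous_fst (S.H.inv_cont.comp continuous_snd))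
  obtain ⟨K, hK, hK0⟩ := M_supp (S := S) hgc hfc.isCompact
  obtain ⟨L, hL, hL0⟩ := M_supp (S := S) hfc hgc.isCompact
  calc ∫ x, f x * (∫ h, S.T h g x ∂(nu S.toPreCAS ω x₀)) ∂ω
      = ∫ x, ∫ h, f x * S.T h g x ∂(nu S.toPreCAS ω x₀) ∂ω := by
        congr 1 with x
        rw [integral_const_mul]
    _ = ∫ h, ∫ x, f x * S.T h g x ∂ω ∂(nu S.toPreCAS ω x₀) := by
        refine swap_cs (k := fun x h => f x * S.T h g x) ((hf.comp continuous_fst).mul cTg)
          hfc.isCompact hK ?_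
        intro x h hxh
        by_cases hx : x ∈ tsupport f
        · rcases hxh with hx' | hh
          · exact absurd hx hx'
          · simp [hK0 x hx h hh]
        · simp [image_eq_zero_of_notMem_tsupport hx]
    _ = ∫ h, ∫ x, S.T (S.H.inv h) f x * g x ∂ω ∂(nu S.toPreCAS ω x₀) := by
        congr 1 with h
        rw [hω.2.2 h f g hf hfc hg hgc]
    _ = ∫ x, ∫ h, S.T (S.H.inv h) f x * g x ∂(nu S.toPreCAS ω x₀) ∂ω := by
        refine (swap_cs (k := fun x h => S.T (S.H.inv h) f x * g x)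
          (cTf'.mul (hg.comp continuous_fst))
          hgc.isCompact (hL.image S.H.inv_cont) ?_).symm
        intro x h hxh
        by_cases hx : x ∈ tsupport g
        · rcases hxh with hx' | hh
          · exact absurd hx hx'
          · have : S.H.inv h ∉ L := fun hm => hh ⟨_, hm, S.H.inv_inv h⟩
            simp [hL0 x hx _ this]
        · simp [image_eq_zero_of_notMem_tsupport hx]
    _ = ∫ x, g x * (∫ h, S.T h f x ∂(nu S.toPreCAS ω x₀)) ∂ω := by
        congr 1 with x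
        rw [integral_mul_const, mul_comm,
          int_inv hcomm h1 hω x₀ (k := fun h => S.T h f x)
            (cTf.comp (Continuous.prodMk continuous_const continuous_id))]

/-- The theorem for commutative schemes. -/
theorem T2For_nu (hcomm : S.Comm) (h1 : S.T1) {ω : Measure X} (hω : S.Adj ω) (x₀ : X) :
    S.T2For ω (nu S.toPreCAS ω x₀) := by
  have hω1 := hω.1
  have hω2 := hω.2.1
  have hν := nu_finite S.toPreCAS (ω := ω) x₀
  obtain ⟨g, hg, hgc, hg1, hg0, -, -⟩ := exists_bump (isCompact_singleton (x := x₀)) isOpen_univ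
    (subset_univ _)
  have hgp : 0 < ∫ y, g y ∂ω := by
    refine Continuous.integral_pos_of_hasCompactSupport_nonneg_nonzero (x := x₀) hg hgc
      (fun y => hg0 y) ?_
    rw [hg1 _ rfl]
    exact one_ne_zero
  set u : X → ℝ := fun x => ∫ h, S.T h g x ∂(nu S.toPreCAS ω x₀) with hu
  have cu : Continuous u := M_cont hω x₀ hg hgc
  have hcu : ∀ x, ∃ c : ℝ, 0 < c ∧ c * u x = ∫ y, g y ∂ω ∧
      ∀ f : X → ℝ, Continuous f → HasCompactSupport f →
        c * (∫ h, S.T h f x ∂(nu S.toPreCAS ω x₀)) = ∫ y, f y ∂ω := by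
    intro x
    obtain ⟨c, hc, hcx⟩ := exists_c hcomm h1 hω x₀ x
    exact ⟨c, hc, M_eq hcomm h1 hω x₀ x hc hcx hg hgc, fun f hf hfc =>
      M_eq hcomm h1 hω x₀ x hc hcx hf hfc⟩
  have key : ∀ f : X → ℝ, Continuous f → HasCompactSupport f →
      ∫ y, f y * u y ∂ω = ((∫ y, g y * u y ∂ω) / ∫ y, g y ∂ω) * ∫ y, f y ∂ω := by
    intro f hf hfc
    have e1 : ∫ y, f y * u y ∂ω = ∫ x, g x * (∫ h, S.T h f x ∂(nu S.toPreCAS ω x₀)) ∂ω :=
      M_symm hcomm h1 hω x₀ hf hfc hg hgc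
    have e2 : ∀ x, g x * (∫ h, S.T h f x ∂(nu S.toPreCAS ω x₀))
        = ((∫ y, f y ∂ω) / ∫ y, g y ∂ω) * (g x * u x) := by
      intro x
      obtain ⟨c, hc, hc1, hc2⟩ := hcu x
      have h3 := hc2 f hf hfc
      rw [← h3, ← hc1]
      have hux : u x ≠ 0 := by
        intro h0
        rw [h0, mul_zero] at hc1
        exact hgp.ne hc1
      field_simp
    rw [e1]
    simp only [e2]
    rw [integral_const_mul]
    ring
  have hconst : ∀ x, u x = (∫ y, g y * u y ∂ω) / ∫ y, g y ∂ω := fun x =>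
    eq_const_of_integral cu _ key x
  have hc0 : ∀ {x : X} {c : ℝ}, 0 < c →
      (∀ F : D → ℝ, Continuous F → HasCompactSupport F → (∀ y, 0 ≤ F y) →
      ∫ y, F (S.proj x y) ∂ω = c * ∫ l, F l ∂(nu S.toPreCAS ω x₀)) → c = 1 := by
    intro x c hc hcx
    have q1 := M_eq hcomm h1 hω x₀ x hc hcx hg hgc
    have q2 := M_eq hcomm h1 hω x₀ x₀ one_pos (fun F hF hFc hF0 => by
      rw [one_mul, integral_nu _ _ _ hF]) hg hgc
    have q3 : u x = u x₀ := by rw [hconst x, hconst x₀]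
    have q1' : c * u x = ∫ y, g y ∂ω := q1
    have q2' : 1 * u x₀ = ∫ y, g y ∂ω := q2
    rw [q3, ← q2'] at q1'
    have hux : u x₀ ≠ 0 := by
      intro h0
      rw [h0, mul_zero] at q2'
      exact hgp.ne q2'
    exact mul_right_cancel₀ hux q1'
  intro f hf hfc k hk hkc x
  obtain ⟨c, hc, hcx⟩ := exists_c hcomm h1 hω x₀ x
  have := T2_c hcomm h1 hω x₀ x hc hcx hf hfc hk hkc
  rw [hc0 hc hcx, one_mul] at this
  exact this

/-- **Commutative continuous association schemes with (T1) have (T2).** -/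
theorem T2_of_T1 [Nonempty X] (hcomm : S.Comm) (h1 : S.T1) :
    S.T2 ∧ ∀ ω, S.Adj ω → ∃ ω', S.H.IsLeftHaar ω' ∧ S.T2For ω ω' := by
  obtain ⟨x₀⟩ := ‹Nonempty X›
  have h : ∀ ω, S.Adj ω → ∃ ω', S.H.IsLeftHaar ω' ∧ S.T2For ω ω' := fun ω hω =>
    ⟨_, nu_haar hcomm h1 hω x₀, T2For_nu hcomm h1 hω x₀⟩
  obtain ⟨ω, hω⟩ := S.exists_adj
  obtain ⟨ω', h1', h2'⟩ := h ω hω
  exact ⟨⟨ω, ω', hω, h1', h2'⟩, h⟩

end Pool.Agent.X211.Sch
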