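import Pool.Agent.X211.CAS.Inv

/-! The images of the measure are Haar measures. -/

set_option linter.unusedSectionVars false

namespace Pool.Agent.X211.Sch

open MeasureTheory Set Topology Filter

variable {X D : Type*} [TopologicalSpace X] [MeasurableSpace X] [BorelSpace X]
  [SecondCountableTopology X] [LocallyCompactSpace X] [T2Space X]
  [TopologicalSpace D] [MeasurableSpace D] [BorelSpace D]
  [SecondCountableTopology D] [LocallyCompactSpace D] [T2Space D]

variable {S : CAS X D}

/-- translations are adjoint for the image measures -/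
theorem adjD (h1 : S.T1) {ω : Measure X} (hω : S.Adj ω) (x : X) (h : D) {F G : D → ℝ}
    (hF : Continuous F) (hFc : HasCompactSupport F) (hG : Continuous G)
    (hGc : HasCompactSupport G) :
    ∫ y, S.H.tr G (S.H.inv h) (S.proj x y) * F (S.proj x y) ∂ω
      = ∫ y, G (S.proj x y) * S.H.tr F h (S.proj x y) ∂ω := by
  have e1 : ∀ y, S.H.tr G (S.H.inv h) (S.proj x y)
      = S.T (S.H.inv h) (fun z => G (S.proj x z)) y := h1 _ x G hG hGc
  have e2 : ∀ y, S.H.tr F h (S.proj x y) = S.T h (fun z => F (S.proj x z)) y := h1 _ x F hF hFc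
  simp only [e1, e2]
  exact hω.2.2 h _ _ (hG.comp (proj_contR S.toPreCAS x)) (comp_cs S.toPreCAS hGc x)
    (hF.comp (proj_contR S.toPreCAS x)) (comp_cs S.toPreCAS hFc x)

theorem adjD' (h1 : S.T1) {ω : Measure X} (hω : S.Adj ω) (x : X) (h : D) {F G : D → ℝ}
    (hF : Continuous F) (hFc : HasCompactSupport F) (hG : Continuous G)
    (hGc : HasCompactSupport G) :
    ∫ l, S.H.tr G (S.H.inv h) l * F l ∂(nu S.toPreCAS ω x)
      = ∫ l, G l * S.H.tr F h l ∂(nu S.toPreCAS ω x) := by
  have c1 : ∀ {f : D → ℝ} (hf : Continuous f) (hc : HasCompactSupport f) (k : D),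
      Continuous (S.H.tr f k) := fun hf hc k =>
    (tr_cont (S := S.toPreCAS) hf hc).comp (Continuous.prodMk continuous_id continuous_const)
  have k1 : Continuous fun l => S.H.tr G (S.H.inv h) l * F l := (c1 hG hGc _).mul hF
  have k2 : Continuous fun l => G l * S.H.tr F h l := hG.mul (c1 hF hFc _)
  rw [integral_nu S.toPreCAS ω x k1, integral_nu S.toPreCAS ω x k2]
  exact adjD h1 hω x h hF hFc hG hGc

theorem sfin {Y : Type*} [TopologicalSpace Y] [MeasurableSpace Y] [BorelSpace Y]
    [SecondCountableTopology Y] [LocallyCompactSpace Y] [T2Space Y] (μ : Measure Y)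
    [IsFiniteMeasureOnCompacts μ] : SFinite μ := by
  have : IsLocallyFiniteMeasure μ := inferInstance
  infer_instance

/-- proportionality to any left Haar measure -/
theorem prop_haar (hcomm : S.Comm) (h1 : S.T1) {ω : Measure X} (hω : S.Adj ω) (x : X)
    {ω' : Measure D} (hH : S.H.IsLeftHaar ω') {f g : D → ℝ}
    (hf : Continuous f) (hfc : HasCompactSupport f) (hg : Continuous g)
    (hgc : HasCompactSupport g) (hf0 : ∀ y, 0 ≤ f y) (hg0 : ∀ y, 0 ≤ g y) :
    (∫⁻ l, ENNReal.ofReal (f l) ∂(nu S.toPreCAS ω x)) * ∫⁻ l, ENNReal.ofReal (g l) ∂ω'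
      = (∫⁻ l, ENNReal.ofReal (g l) ∂(nu S.toPreCAS ω x))
        * ∫⁻ l, ENNReal.ofReal (f (S.H.inv l)) ∂ω' := by
  obtain ⟨hω1, hω2, hω3⟩ := hω
  obtain ⟨hH1, hH2, hH3⟩ := hH
  have hν := nu_finite S.toPreCAS (ω := ω) x
  set ν := nu S.toPreCAS ω x with hνd
  have := sfin ν
  have := sfin ω'
  have ctr : ∀ {f : D → ℝ}, Continuous f → HasCompactSupport f →
      Continuous fun p : D × D => S.H.tr f p.2 p.1 := fun hf hc =>
    tr_cont (S := S.toPreCAS) hf hc
  have m : ∀ {f : D → ℝ}, Continuous f → Measurable fun l => ENNReal.ofReal (f l) :=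
    fun hf => ENNReal.measurable_ofReal.comp hf.measurable
  -- left invariance
  have L1 : ∀ l, ∫⁻ y, ENNReal.ofReal (S.H.tr g y l) ∂ω' = ∫⁻ y, ENNReal.ofReal (g y) ∂ω' :=
    fun l => hH3 l g hg hgc hg0
  have hfi : Continuous fun l => f (S.H.inv l) := hf.comp S.H.inv_cont
  have hfic : HasCompactSupport fun l => f (S.H.inv l) := by
    refine HasCompactSupport.intro (hfc.image S.H.inv_cont) fun l hl => ?_
    by_contra h0
    exact hl ⟨S.H.inv l, subset_tsupport f h0, S.H.inv_inv l⟩
  have L2 : ∀ l, ∫⁻ y, ENNReal.ofReal (S.H.tr f (S.H.inv y) l) ∂ω'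
      = ∫⁻ y, ENNReal.ofReal (f (S.H.inv y)) ∂ω' := by
    intro l
    rw [← hH3 (S.H.inv l) _ hfi hfic fun y => hf0 _]
    congr 1 with y
    congr 1
    rw [hcomm (S.H.inv l) y, Hypergroup.tr]
    have e : S.H.conv l (S.H.inv y) = (S.H.conv y (S.H.inv l)).map S.H.inv := by
      rw [S.H.map_inv, S.H.inv_inv]
    rw [e, integral_map S.H.inv_cont.aemeasurable hf.aestronglyMeasurable]
  calc (∫⁻ l, ENNReal.ofReal (f l) ∂ν) * ∫⁻ l, ENNReal.ofReal (g l) ∂ω'
      = ∫⁻ l, ∫⁻ y, ENNReal.ofReal (f l * S.H.tr g y l) ∂ω' ∂ν := by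
        rw [← lintegral_mul_const _ (m hf)]
        congr 1 with l
        have k1 : Continuous fun y => S.H.tr g y l :=
          (ctr hg hgc).comp (Continuous.prodMk continuous_const continuous_id)
        rw [← L1 l, ← lintegral_const_mul _ (m k1)]
        congr 1 with y
        rw [ENNReal.ofReal_mul (hf0 l)]
    _ = ∫⁻ y, ∫⁻ l, ENNReal.ofReal (f l * S.H.tr g y l) ∂ν ∂ω' := by
        refine lintegral_lintegral_swap ?_
        refine (ENNReal.measurable_ofReal.comp (Continuous.measurable ?_)).aemeasurable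
        exact (hf.comp continuous_fst).mul (ctr hg hgc)
    _ = ∫⁻ y, ∫⁻ l, ENNReal.ofReal (g l * S.H.tr f (S.H.inv y) l) ∂ν ∂ω' := by
        congr 1 with y
        have c1 : Continuous fun l => S.H.tr g y l :=
          (ctr hg hgc).comp (Continuous.prodMk continuous_id continuous_const)
        have c2 : Continuous fun l => S.H.tr f (S.H.inv y) l :=
          (ctr hf hfc).comp (Continuous.prodMk continuous_id continuous_const)
        have j1 : Integrable (fun l => f l * S.H.tr g y l) ν :=
          (hf.mul c1).integrable_of_hasCompactSupport hfc.mul_right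
        have j2 : Integrable (fun l => g l * S.H.tr f (S.H.inv y) l) ν :=
          (hg.mul c2).integrable_of_hasCompactSupport hgc.mul_right
        rw [← ofReal_integral_eq_lintegral_ofReal j1
            (Eventually.of_forall fun l => mul_nonneg (hf0 l) (integral_nonneg hg0)),
          ← ofReal_integral_eq_lintegral_ofReal j2
            (Eventually.of_forall fun l => mul_nonneg (hg0 l) (integral_nonneg hf0))]
        congr 1
        rw [hνd, ← adjD' h1 ⟨hω1, hω2, hω3⟩ x y hg hgc hf hfc]
        congr 1 with l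
        rw [mul_comm]
    _ = ∫⁻ l, ∫⁻ y, ENNReal.ofReal (g l * S.H.tr f (S.H.inv y) l) ∂ω' ∂ν := by
        refine (lintegral_lintegral_swap ?_).symm
        refine (ENNReal.measurable_ofReal.comp (Continuous.measurable ?_)).aemeasurable
        exact (hg.comp continuous_fst).mul ((ctr hf hfc).comp
          (Continuous.prodMk continuous_fst (S.H.inv_cont.comp continuous_snd)))
    _ = (∫⁻ l, ENNReal.ofReal (g l) ∂ν) * ∫⁻ l, ENNReal.ofReal (f (S.H.inv l)) ∂ω' := by
        rw [← lintegral_mul_const _ (m hg)]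
        congr 1 with l
        have k1 : Continuous fun y => S.H.tr f (S.H.inv y) l :=
          (ctr hf hfc).comp (Continuous.prodMk continuous_const S.H.inv_cont)
        rw [← L2 l, ← lintegral_const_mul _ (m k1)]
        congr 1 with y
        rw [ENNReal.ofReal_mul (hg0 l)]

/-- `T_h` preserves the integral of nonnegative functions -/
theorem lint_T {ω : Measure X} (hω : S.Adj ω) (h : D) {G : X → ℝ} (hG : Continuous G)
    (hGc : HasCompactSupport G) (hG0 : ∀ y, 0 ≤ G y) :
    ∫⁻ x, ENNReal.ofReal (S.T h G x) ∂ω = ∫⁻ x, ENNReal.ofReal (G x) ∂ω := by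
  obtain ⟨hω1, hω2, hω3⟩ := hω
  have cT : Continuous (S.T h G) :=
    (T_cont S.toPreCAS hG hGc).comp (Continuous.prodMk continuous_id continuous_const)
  have iG : Integrable G ω := hG.integrable_of_hasCompactSupport hGc
  refine le_antisymm ?_ ?_
  · have mono : ∀ n, ∫⁻ x in compactCovering X n, ENNReal.ofReal (S.T h G x) ∂ω
        ≤ ∫⁻ x, ENNReal.ofReal (G x) ∂ω := by
      intro n
      obtain ⟨b, hb, hbc, hb1, hb0, hble, -⟩ := exists_bump (isCompact_compactCovering X n)
        isOpen_univ (subset_univ _)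
      have i1 : Integrable (fun x => b x * S.T h G x) ω :=
        (hb.mul cT).integrable_of_hasCompactSupport hbc.mul_right
      calc ∫⁻ x in compactCovering X n, ENNReal.ofReal (S.T h G x) ∂ω
          = ∫⁻ x in compactCovering X n, ENNReal.ofReal (b x * S.T h G x) ∂ω := by
            refine setLIntegral_congr_fun (isCompact_compactCovering X n).measurableSet
              fun x hx => ?_
            simp [hb1 x hx]
        _ ≤ ∫⁻ x, ENNReal.ofReal (b x * S.T h G x) ∂ω := setLIntegral_le_lintegral _ _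
        _ = ENNReal.ofReal (∫ x, b x * S.T h G x ∂ω) :=
            (ofReal_integral_eq_lintegral_ofReal i1 (Eventually.of_forall fun x =>
              mul_nonneg (hb0 x) (T_nonneg _ hG0 _ _))).symm
        _ = ENNReal.ofReal (∫ x, S.T (S.H.inv h) b x * G x ∂ω) := by
            rw [hω3 h b G hb hbc hG hGc]
        _ ≤ ENNReal.ofReal (∫ x, G x ∂ω) := by
            refine ENNReal.ofReal_le_ofReal (integral_mono_of_nonneg
              (Eventually.of_forall fun x => mul_nonneg (T_nonneg _ hb0 _ _) (hG0 x)) iG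
              (Eventually.of_forall fun x => ?_))
            exact mul_le_of_le_one_left (hG0 x) (T_le_one _ hb hbc hble _ _)
        _ = ∫⁻ x, ENNReal.ofReal (G x) ∂ω :=
            ofReal_integral_eq_lintegral_ofReal iG (Eventually.of_forall hG0)
    have e : ∫⁻ x, ENNReal.ofReal (S.T h G x) ∂ω
        = ⨆ n, ∫⁻ x in compactCovering X n, ENNReal.ofReal (S.T h G x) ∂ω := by
      rw [← setLIntegral_univ, ← iUnion_compactCovering X]
      exact setLIntegral_iUnion_of_directed _ (Monotone.directed_le fun m n hmn =>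
        compactCovering_subset X hmn)
    rw [e]
    exact iSup_le mono
  · obtain ⟨K, hK, hKs⟩ := S.supp_cont.union (fun p => S.supp_compact p.1 p.2)
      (hGc.isCompact.prod (isCompact_singleton (x := S.H.inv h)))
    obtain ⟨b, hb, hbc, hb1, hb0, hble, -⟩ := exists_bump hK isOpen_univ (subset_univ _)
    have i1 : Integrable (fun x => b x * S.T h G x) ω :=
      (hb.mul cT).integrable_of_hasCompactSupport hbc.mul_right
    calc ∫⁻ x, ENNReal.ofReal (G x) ∂ω = ENNReal.ofReal (∫ x, G x ∂ω) :=
          (ofReal_integral_eq_lintegral_ofReal iG (Eventually.of_forall hG0)).symm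
      _ = ENNReal.ofReal (∫ x, S.T (S.H.inv h) b x * G x ∂ω) := by
          congr 2 with x
          by_cases hx : G x = 0
          · simp [hx]
          · have : S.T (S.H.inv h) b x = 1 := by
              rw [← T_one S.toPreCAS (S.H.inv h) x]
              refine T_congr _ fun y hy => hb1 y ?_
              exact hKs (x, S.H.inv h) ⟨subset_tsupport G hx, rfl⟩
                ((S.mem_supp x y _).2 hy.symm)
            rw [this, one_mul]
      _ = ENNReal.ofReal (∫ x, b x * S.T h G x ∂ω) := by rw [hω3 h b G hb hbc hG hGc]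
      _ = ∫⁻ x, ENNReal.ofReal (b x * S.T h G x) ∂ω :=
          ofReal_integral_eq_lintegral_ofReal i1 (Eventually.of_forall fun x =>
              mul_nonneg (hb0 x) (T_nonneg _ hG0 _ _))
      _ ≤ ∫⁻ x, ENNReal.ofReal (S.T h G x) ∂ω := by
          refine lintegral_mono fun x => ENNReal.ofReal_le_ofReal ?_
          exact mul_le_of_le_one_left (T_nonneg _ hG0 _ _) (hble x)

theorem nu_pos {ω : Measure X} (hω : S.Adj ω) (x : X) {F : D → ℝ}
    (hF : Continuous F) (hFc : HasCompactSupport F) (hF0 : ∀ y, 0 ≤ F y) (he : F S.H.e ≠ 0) :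
    0 < ∫ l, F l ∂(nu S.toPreCAS ω x) := by
  obtain ⟨hω1, hω2, hω3⟩ := hω
  rw [integral_nu _ _ _ hF]
  refine Continuous.integral_pos_of_hasCompactSupport_nonneg_nonzero (x := x)
    (hF.comp (proj_contR S.toPreCAS x)) (comp_cs S.toPreCAS hFc x) (fun y => hF0 _) ?_
  rw [proj_self]
  exact he

theorem nu_haar (hcomm : S.Comm) (h1 : S.T1) {ω : Measure X} (hω : S.Adj ω) (x : X) :
    S.H.IsLeftHaar (nu S.toPreCAS ω x) := by
  have hω' := hω
  obtain ⟨hω1, hω2, hω3⟩ := hω
  refine ⟨nu_finite S.toPreCAS x, ?_, fun l f hf hfc hf0 => ?_⟩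
  · intro h0
    obtain ⟨b, hb, hbc, hb1, hb0, hble, -⟩ := exists_bump (isCompact_singleton (x := S.H.e))
        isOpen_univ (subset_univ _)
    have := nu_pos hω' x hb hbc hb0 (by rw [hb1 _ rfl]; exact one_ne_zero)
    rw [h0] at this
    simp at this
  · have ctr : Continuous (S.H.tr f l) :=
      (tr_cont (S := S.toPreCAS) hf hfc).comp (Continuous.prodMk continuous_id continuous_const)
    have e1 : ∀ y, ∫ z, f z ∂(S.H.conv l y) = S.H.tr f l y := fun y => by
      rw [hcomm l y]; rfl
    simp only [e1]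
    rw [lintegral_nu _ _ _ ctr, lintegral_nu _ _ _ hf]
    have e2 : ∀ y, S.H.tr f l (S.proj x y) = S.T l (fun z => f (S.proj x z)) y := h1 l x f hf hfc
    simp only [e2]
    exact lint_T hω' l (hf.comp (proj_contR S.toPreCAS x)) (comp_cs S.toPreCAS hfc x)
      fun y => hf0 _

end Pool.Agent.X211.Sch
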