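import Pool.Agent.X211.CAS.Tools

/-! Basic properties of continuous association schemes; the images of the measure. -/

set_option linter.unusedSectionVars false

namespace Pool.Agent.X211.Sch

open MeasureTheory Set Topology Filter

variable {X D : Type*} [TopologicalSpace X] [MeasurableSpace X] [BorelSpace X]
  [SecondCountableTopology X] [LocallyCompactSpace X] [T2Space X]
  [TopologicalSpace D] [MeasurableSpace D] [BorelSpace D]
  [SecondCountableTopology D] [LocallyCompactSpace D] [T2Space D]

variable (S : PreCAS X D)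

theorem T_congr {f g : X → ℝ} {h : D} {x : X} (hfg : ∀ y, S.proj x y = h → f y = g y) :
    S.T h f x = S.T h g x := by
  refine integral_congr_ae ?_
  filter_upwards [Measure.support_mem_ae (μ := S.K x h)] with y hy
  exact hfg y ((S.mem_supp x y h).1 hy).symm

theorem T_one (h : D) (x : X) : S.T h (fun _ => 1) x = 1 := by
  have := S.prob x h
  simp [PreCAS.T]

theorem T_nonneg {f : X → ℝ} (hf : ∀ y, 0 ≤ f y) (h : D) (x : X) : 0 ≤ S.T h f x :=
  integral_nonneg hf

theorem T_cont {f : X → ℝ} (hf : Continuous f) (hc : HasCompactSupport f) :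
    Continuous fun p : X × D => S.T p.2 f p.1 := S.cont f hf (bdd_of_cs hf hc)

theorem T_le_one {f : X → ℝ} (hf : Continuous f) (hc : HasCompactSupport f) (h1 : ∀ y, f y ≤ 1)
    (h : D) (x : X) : S.T h f x ≤ 1 := by
  have := S.prob x h
  have : S.T h f x ≤ ∫ _, (1 : ℝ) ∂(S.K x h) :=
    integral_mono (hf.integrable_of_hasCompactSupport hc) (integrable_const _) h1
  simpa using this

theorem proper {C : Set X} {C' : Set D} (hC : IsCompact C) (hC' : IsCompact C') :
    ∃ K, IsCompact K ∧ ∀ x ∈ C, ∀ y, S.proj x y ∈ C' → y ∈ K := by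
  obtain ⟨K, hK, h⟩ := S.supp_cont.union (fun p => S.supp_compact p.1 p.2) (hC.prod hC')
  exact ⟨K, hK, fun x hx y hy => h (x, S.proj x y) ⟨hx, hy⟩ ((S.mem_supp x y _).2 rfl)⟩

theorem comp_cs {f : D → ℝ} (hc : HasCompactSupport f) (x : X) :
    HasCompactSupport fun y => f (S.proj x y) := by
  obtain ⟨K, hK, h⟩ := proper S (isCompact_singleton (x := x)) hc
  refine HasCompactSupport.intro hK fun y hy => ?_
  by_contra h0
  exact hy (h x rfl y (subset_tsupport f h0))

theorem proj_contR (x : X) : Continuous (S.proj x) :=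
  S.proj_cont.comp (Continuous.prodMk continuous_const continuous_id)

theorem proj_self (x : X) : S.proj x x = S.H.e := by
  refine ((S.mem_supp x x S.H.e).1 ?_).symm
  rw [S.K_e, Measure.mem_support_iff_forall]
  intro U hU
  rw [Measure.dirac_apply_of_mem (mem_of_mem_nhds hU)]
  exact one_pos

theorem shrink (x : X) {V : Set X} (hV : IsOpen V) (hx : x ∈ V) :
    ∃ U : Set D, IsOpen U ∧ S.H.e ∈ U ∧ ∀ y, S.proj x y ∈ U → y ∈ V := by
  have h1 : IsOpen {p : X × D | (S.K p.1 p.2).support ⊆ V} := (S.supp_cont V hV).1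
  refine ⟨{h | (S.K x h).support ⊆ V}, ?_, ?_, ?_⟩
  · exact h1.preimage (f := fun h : D => (x, h)) (by fun_prop)
  · show (S.K x S.H.e).support ⊆ V
    rw [S.K_e]
    refine (Measure.support_subset_of_isClosed isClosed_singleton ?_).trans
      (singleton_subset_iff.2 hx)
    rw [mem_ae_dirac_iff (measurableSet_singleton x)]
    rfl
  · intro y hy
    exact hy ((S.mem_supp x y _).2 rfl)

/-- the image of `ω` under `π_x` -/
noncomputable def nu (ω : Measure X) (x : X) : Measure D := ω.map (S.proj x)

theorem integral_nu (ω : Measure X) (x : X) {F : D → ℝ} (hF : Continuous F) :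
    ∫ l, F l ∂(nu S ω x) = ∫ y, F (S.proj x y) ∂ω :=
  integral_map (proj_contR S x).aemeasurable hF.aestronglyMeasurable

theorem lintegral_nu (ω : Measure X) (x : X) {F : D → ℝ} (hF : Continuous F) :
    ∫⁻ l, ENNReal.ofReal (F l) ∂(nu S ω x) = ∫⁻ y, ENNReal.ofReal (F (S.proj x y)) ∂ω :=
  lintegral_map (ENNReal.measurable_ofReal.comp hF.measurable) (proj_contR S x).measurable

theorem nu_finite {ω : Measure X} [IsFiniteMeasureOnCompacts ω] (x : X) :
    IsFiniteMeasureOnCompacts (nu S ω x) := by
  refine ⟨fun C hC => ?_⟩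
  obtain ⟨K, hK, h⟩ := proper S (isCompact_singleton (x := x)) hC
  rw [nu, Measure.map_apply (proj_contR S x).measurable hC.measurableSet]
  exact (measure_mono fun y hy => h x rfl y hy).trans_lt hK.measure_lt_top

variable {S}

theorem tr_cont {f : D → ℝ} (hf : Continuous f) (hc : HasCompactSupport f) :
    Continuous fun p : D × D => S.H.tr f p.2 p.1 := S.H.cont f hf (bdd_of_cs hf hc)

theorem tr_nonneg {f : D → ℝ} (hf : ∀ y, 0 ≤ f y) (h l : D) : 0 ≤ S.H.tr f h l :=
  integral_nonneg hf

end Pool.Agent.X211.Sch
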