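import Pool.Agent.X211.CAS.Haar

/-! Commutative schemes: (T1) implies (T2). -/

set_option linter.unusedSectionVars false

namespace Pool.Agent.X211.Sch

open MeasureTheory Set Topology Filter

variable {X D : Type*} [TopologicalSpace X] [MeasurableSpace X] [BorelSpace X]
  [SecondCountableTopology X] [LocallyCompactSpace X] [T2Space X]
  [TopologicalSpace D] [MeasurableSpace D] [BorelSpace D]
  [SecondCountableTopology D] [LocallyCompactSpace D] [T2Space D]

theorem swap_cs {k : X → D → ℝ} (hk : Continuous fun p : X × D => k p.1 p.2) {A : Set X}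
    {B : Set D} (hA : IsCompact A) (hB : IsCompact B) (h0 : ∀ x y, x ∉ A ∨ y ∉ B → k x y = 0)
    {μ : Measure X} {ν : Measure D} [IsFiniteMeasureOnCompacts μ] [IsFiniteMeasureOnCompacts ν] :
    ∫ x, (∫ y, k x y ∂ν) ∂μ = ∫ y, (∫ x, k x y ∂μ) ∂ν := by
  refine integral_integral_swap_of_hasCompactSupport (f := k) hk ?_
  refine HasCompactSupport.intro (hA.prod hB) fun p hp => h0 p.1 p.2 ?_
  by_contra hc
  push Not at hc
  exact hp hc

theorem ext_cc {μ μ' : Measure D} [IsFiniteMeasureOnCompacts μ] [IsFiniteMeasureOnCompacts μ']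
    (h : ∀ f : D → ℝ, Continuous f → HasCompactSupport f → (∀ y, 0 ≤ f y) →
      ∫ y, f y ∂μ = ∫ y, f y ∂μ') : μ = μ' := by
  refine Measure.ext_of_integral_eq_on_compactlySupported_nnreal fun f => ?_
  refine h (fun x => (f x : ℝ)) (NNReal.continuous_coe.comp f.continuous) ?_ fun y => (f y).2
  exact f.hasCompactSupport.comp_left (g := ((↑) : NNReal → ℝ)) rfl

variable {S : CAS X D}

theorem prop_haar_real (hcomm : S.Comm) (h1 : S.T1) {ω : Measure X} (hω : S.Adj ω) (x : X)
    {ω' : Measure D} (hH : S.H.IsLeftHaar ω') {f g : D → ℝ}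
    (hf : Continuous f) (hfc : HasCompactSupport f) (hg : Continuous g)
    (hgc : HasCompactSupport g) (hf0 : ∀ y, 0 ≤ f y) (hg0 : ∀ y, 0 ≤ g y) :
    (∫ l, f l ∂(nu S.toPreCAS ω x)) * ∫ l, g l ∂ω'
      = (∫ l, g l ∂(nu S.toPreCAS ω x)) * ∫ l, f (S.H.inv l) ∂ω' := by
  have h := congrArg ENNReal.toReal (prop_haar hcomm h1 hω x hH hf hfc hg hgc hf0 hg0)
  rw [ENNReal.toReal_mul, ENNReal.toReal_mul] at h
  rw [integral_eq_lintegral_of_nonneg_ae (Eventually.of_forall hf0) hf.aestronglyMeasurable,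
    integral_eq_lintegral_of_nonneg_ae (Eventually.of_forall hg0) hg.aestronglyMeasurable,
    integral_eq_lintegral_of_nonneg_ae (Eventually.of_forall hg0) hg.aestronglyMeasurable,
    integral_eq_lintegral_of_nonneg_ae (Eventually.of_forall fun l => hf0 _)
      (hf.comp S.H.inv_cont).aestronglyMeasurable]
  exact h

theorem bump_e (S : CAS X D) : ∃ b : D → ℝ, Continuous b ∧ HasCompactSupport b ∧ b S.H.e = 1 ∧
    ∀ y, 0 ≤ b y := by
  obtain ⟨b, hb, hbc, hb1, hb0, -, -⟩ := exists_bump (isCompact_singleton (x := S.H.e))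
        isOpen_univ (subset_univ _)
  exact ⟨b, hb, hbc, hb1 _ rfl, hb0⟩

theorem nu_inv (hcomm : S.Comm) (h1 : S.T1) {ω : Measure X} (hω : S.Adj ω) (x : X) :
    (nu S.toPreCAS ω x).map S.H.inv = nu S.toPreCAS ω x := by
  have hω1 := hω.1
  have hν := nu_finite S.toPreCAS (ω := ω) x
  have hν' : IsFiniteMeasureOnCompacts ((nu S.toPreCAS ω x).map S.H.inv) := by
    refine ⟨fun C hC => ?_⟩
    rw [Measure.map_apply S.H.inv_cont.measurable hC.measurableSet]
    have : S.H.inv ⁻¹' C = S.H.inv '' C := by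
      ext l
      constructor
      · intro hl; exact ⟨S.H.inv l, hl, S.H.inv_inv l⟩
      · rintro ⟨k, hk, rfl⟩; show S.H.inv (S.H.inv k) ∈ C; rw [S.H.inv_inv]; exact hk
    rw [this]
    exact (hC.image S.H.inv_cont).measure_lt_top
  refine ext_cc fun f hf hfc hf0 => ?_
  obtain ⟨b, hb, hbc, hb1, hb0⟩ := bump_e S
  have hbp := nu_pos hω x hb hbc hb0 (by rw [hb1]; exact one_ne_zero)
  have h := prop_haar_real hcomm h1 hω x (nu_haar hcomm h1 hω x) hf hfc hb hbc hf0 hb0
  rw [integral_map S.H.inv_cont.aemeasurable hf.aestronglyMeasurable]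
  rw [mul_comm] at h
  exact (mul_left_cancel₀ hbp.ne' h).symm

theorem int_inv (hcomm : S.Comm) (h1 : S.T1) {ω : Measure X} (hω : S.Adj ω) (x : X)
    {k : D → ℝ} (hk : Continuous k) :
    ∫ l, k (S.H.inv l) ∂(nu S.toPreCAS ω x) = ∫ l, k l ∂(nu S.toPreCAS ω x) := by
  conv_rhs => rw [← nu_inv hcomm h1 hω x]
  rw [integral_map S.H.inv_cont.aemeasurable hk.aestronglyMeasurable]

theorem exists_c (hcomm : S.Comm) (h1 : S.T1) {ω : Measure X} (hω : S.Adj ω) (x₀ x : X) :
    ∃ c : ℝ, 0 < c ∧ ∀ F : D → ℝ, Continuous F → HasCompactSupport F → (∀ y, 0 ≤ F y) →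
      ∫ y, F (S.proj x y) ∂ω = c * ∫ l, F l ∂(nu S.toPreCAS ω x₀) := by
  obtain ⟨b, hb, hbc, hb1, hb0⟩ := bump_e S
  have hbp := nu_pos hω x hb hbc hb0 (by rw [hb1]; exact one_ne_zero)
  have hbp0 := nu_pos hω x₀ hb hbc hb0 (by rw [hb1]; exact one_ne_zero)
  refine ⟨(∫ l, b l ∂(nu S.toPreCAS ω x)) / ∫ l, b l ∂(nu S.toPreCAS ω x₀), div_pos hbp hbp0,
    fun F hF hFc hF0 => ?_⟩
  have h := prop_haar_real hcomm h1 hω x (nu_haar hcomm h1 hω x₀) hF hFc hb hbc hF0 hb0
  rw [int_inv hcomm h1 hω x₀ hF] at h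
  rw [← integral_nu S.toPreCAS ω x hF, div_mul_eq_mul_div, eq_div_iff hbp0.ne']
  exact h

/-- the main identity -/
theorem main_id (hcomm : S.Comm) (h1 : S.T1) {ω : Measure X} (hω : S.Adj ω) (x₀ x : X)
    {F f : D → ℝ} (hF : Continuous F) (hFc : HasCompactSupport F) (hf : Continuous f)
    (hfc : HasCompactSupport f) {g : X → ℝ} (hg : Continuous g) (hgc : HasCompactSupport g) :
    ∫ y, F (S.proj x y) * (∫ h, S.T (S.H.inv h) g y * f h ∂(nu S.toPreCAS ω x₀)) ∂ω
      = ∫ h, F h * (∫ y, g y * S.H.tr f (S.H.inv (S.proj x y)) h ∂ω)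
          ∂(nu S.toPreCAS ω x₀) := by
  have hω1 := hω.1
  have hν := nu_finite S.toPreCAS (ω := ω) x₀
  set ν := nu S.toPreCAS ω x₀ with hνd
  have cT : Continuous fun p : X × D => S.T p.2 g p.1 := T_cont S.toPreCAS hg hgc
  have cT' : Continuous fun p : X × D => S.T (S.H.inv p.2) g p.1 :=
    cT.comp (Continuous.prodMk continuous_fst (S.H.inv_cont.comp continuous_snd))
  have cF : Continuous fun y => F (S.proj x y) := hF.comp (proj_contR S.toPreCAS x)
  have cpr : Continuous fun y => S.proj x y := proj_contR S.toPreCAS x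
  have ctr : ∀ {f : D → ℝ}, Continuous f → HasCompactSupport f →
      Continuous fun p : D × D => S.H.tr f p.2 p.1 := fun hf hc =>
    tr_cont (S := S.toPreCAS) hf hc
  have hFπ := comp_cs S.toPreCAS hFc x
  calc ∫ y, F (S.proj x y) * (∫ h, S.T (S.H.inv h) g y * f h ∂ν) ∂ω
      = ∫ y, ∫ h, F (S.proj x y) * (S.T (S.H.inv h) g y * f h) ∂ν ∂ω := by
        congr 1 with y
        rw [integral_const_mul]
    _ = ∫ h, ∫ y, F (S.proj x y) * (S.T (S.H.inv h) g y * f h) ∂ω ∂ν := by
        refine swap_cs (k := fun y h => F (S.proj x y) * (S.T (S.H.inv h) g y * f h)) ?_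
          hFπ.isCompact hfc.isCompact ?_
        · exact (cF.comp continuous_fst).mul (cT'.mul (hf.comp continuous_snd))
        · rintro y h (hy | hh)
          · have : F (S.proj x y) = 0 :=
              image_eq_zero_of_notMem_tsupport (f := fun y => F (S.proj x y)) hy
            simp [this]
          · simp [image_eq_zero_of_notMem_tsupport hh]
    _ = ∫ h, ∫ y, g y * (S.H.tr F h (S.proj x y) * f h) ∂ω ∂ν := by
        congr 1 with h
        have e1 : ∀ y, F (S.proj x y) * (S.T (S.H.inv h) g y * f h)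
            = f h * (S.T (S.H.inv h) g y * F (S.proj x y)) := fun y => by ring
        have e2 : ∀ y, g y * (S.H.tr F h (S.proj x y) * f h)
            = f h * (g y * S.T h (fun z => F (S.proj x z)) y) := fun y => by
          have e3 : S.H.tr F h (S.proj x y) = S.T h (fun z => F (S.proj x z)) y :=
            h1 h x F hF hFc y
          rw [e3]; ring
        simp only [e1, e2]
        rw [integral_const_mul, integral_const_mul, hω.2.2 h g _ hg hgc cF hFπ]
    _ = ∫ y, ∫ h, g y * (S.H.tr F h (S.proj x y) * f h) ∂ν ∂ω := by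
        refine (swap_cs (k := fun y h => g y * (S.H.tr F h (S.proj x y) * f h)) ?_
          hgc.isCompact hfc.isCompact ?_).symm
        · refine (hg.comp continuous_fst).mul (Continuous.mul ?_ (hf.comp continuous_snd))
          exact (ctr hF hFc).comp (Continuous.prodMk (cpr.comp continuous_fst) continuous_snd)
        · rintro y h (hy | hh)
          · simp [image_eq_zero_of_notMem_tsupport hy]
          · simp [image_eq_zero_of_notMem_tsupport hh]
    _ = ∫ y, ∫ h, F h * (g y * S.H.tr f (S.H.inv (S.proj x y)) h) ∂ν ∂ω := by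
        congr 1 with y
        have e1 : ∀ h, g y * (S.H.tr F h (S.proj x y) * f h)
            = g y * (f h * S.H.tr F (S.proj x y) h) := fun h => by
          have : S.H.tr F h (S.proj x y) = S.H.tr F (S.proj x y) h := by
            rw [Hypergroup.tr, Hypergroup.tr, hcomm]
          rw [this, mul_comm (f h)]
        have e2 : ∀ h, F h * (g y * S.H.tr f (S.H.inv (S.proj x y)) h)
            = g y * (S.H.tr f (S.H.inv (S.proj x y)) h * F h) := fun h => by ring
        simp only [e1, e2]
        rw [integral_const_mul, integral_const_mul, hνd,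
          adjD' h1 hω x₀ (S.proj x y) hF hFc hf hfc]
    _ = ∫ h, ∫ y, F h * (g y * S.H.tr f (S.H.inv (S.proj x y)) h) ∂ω ∂ν := by
        refine swap_cs (k := fun y h => F h * (g y * S.H.tr f (S.H.inv (S.proj x y)) h)) ?_
          hgc.isCompact hFc.isCompact ?_
        · refine (hF.comp continuous_snd).mul ((hg.comp continuous_fst).mul ?_)
          exact (ctr hf hfc).comp (Continuous.prodMk continuous_snd
            (S.H.inv_cont.comp (cpr.comp continuous_fst)))
        · rintro y h (hy | hh)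
          · simp [image_eq_zero_of_notMem_tsupport hy]
          · simp [image_eq_zero_of_notMem_tsupport hh]
    _ = ∫ h, F h * (∫ y, g y * S.H.tr f (S.H.inv (S.proj x y)) h ∂ω) ∂ν := by
        congr 1 with h
        rw [integral_const_mul]

end Pool.Agent.X211.Sch
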