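import Pool.Agent.X211.CAS.Defs

/-! Tools for continuous association schemes. -/

namespace Pool.Agent.X211.Sch

open MeasureTheory Set Topology Filter

/-- bounded: continuous with compact support -/
theorem bdd_of_cs {Y : Type*} [TopologicalSpace Y] {f : Y → ℝ} (hf : Continuous f)
    (hc : HasCompactSupport f) : ∃ C, ∀ x, |f x| ≤ C := by
  obtain ⟨C, hC⟩ := hf.bounded_above_of_compact_support hc
  exact ⟨C, fun x => by simpa [Real.norm_eq_abs] using hC x⟩

/-- a bump function which is `1` on a compact set -/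
theorem exists_bump {Y : Type*} [TopologicalSpace Y] [LocallyCompactSpace Y] [T2Space Y]
    {K U : Set Y} (hK : IsCompact K) (hU : IsOpen U) (hKU : K ⊆ U) :
    ∃ f : Y → ℝ, Continuous f ∧ HasCompactSupport f ∧ (∀ x ∈ K, f x = 1) ∧
      (∀ x, 0 ≤ f x) ∧ (∀ x, f x ≤ 1) ∧ ∀ x, x ∉ U → f x = 0 := by
  obtain ⟨f, h1, h2, h3, h4⟩ := exists_continuous_one_zero_of_isCompact hK hU.isClosed_compl
    (disjoint_compl_right_iff_subset.2 hKU)
  exact ⟨f, f.continuous, h3, fun x hx => h1 hx, fun x => (h4 x).1, fun x => (h4 x).2,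
    fun x hx => h2 hx⟩

/-- the union of a compact continuous family of compact sets is relatively compact -/
theorem HausCont.union {Z Y : Type*} [TopologicalSpace Z] [TopologicalSpace Y]
    [LocallyCompactSpace Y] {S : Z → Set Y} (hS : HausCont S) (hc : ∀ z, IsCompact (S z))
    {C : Set Z} (hC : IsCompact C) : ∃ K, IsCompact K ∧ ∀ z ∈ C, S z ⊆ K := by
  have h : ∀ z, ∃ K, IsCompact K ∧ S z ⊆ interior K := fun z => exists_compact_superset (hc z)
  choose K hK hSK using h
  obtain ⟨t, -, ht⟩ := hC.elim_nhds_subcover (fun z => {z' | S z' ⊆ interior (K z)})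
    (fun z _ => ((hS _ isOpen_interior).1.mem_nhds (hSK z)))
  refine ⟨⋃ z ∈ t, K z, t.finite_toSet.isCompact_biUnion (fun z _ => hK z), fun z hz => ?_⟩
  obtain ⟨w, hw, hzw⟩ := Set.mem_iUnion₂.1 (ht hz)
  exact (hzw.trans interior_subset).trans (subset_biUnion_of_mem (u := fun z => K z) hw)

/-- averages against a weight concentrated where `φ` is close to `a` -/
theorem avg_le {Y : Type*} [TopologicalSpace Y] [MeasurableSpace Y] [OpensMeasurableSpace Y]
    {μ : Measure Y}
    [IsFiniteMeasureOnCompacts μ] {w φ : Y → ℝ} (hw : Continuous w) (hwc : HasCompactSupport w)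
    (hφ : Continuous φ) (hw0 : ∀ y, 0 ≤ w y) {a ε : ℝ}
    (h : ∀ y, w y ≠ 0 → |φ y - a| ≤ ε) :
    |∫ y, w y * φ y ∂μ - a * ∫ y, w y ∂μ| ≤ ε * ∫ y, w y ∂μ := by
  have i1 : Integrable (fun y => w y * φ y) μ :=
    (hw.mul hφ).integrable_of_hasCompactSupport (hwc.mul_right)
  have i2 : Integrable w μ := hw.integrable_of_hasCompactSupport hwc
  rw [← integral_const_mul, ← integral_sub i1 (i2.const_mul a), ← integral_const_mul]
  refine (abs_integral_le_integral_abs).trans (integral_mono_of_nonneg
    (Eventually.of_forall fun y => abs_nonneg _) (i2.const_mul ε) (Eventually.of_forall fun y => ?_))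
  show |w y * φ y - a * w y| ≤ ε * w y
  by_cases hy : w y = 0
  · simp [hy]
  · rw [show w y * φ y - a * w y = w y * (φ y - a) by ring, abs_mul, abs_of_nonneg (hw0 y), mul_comm ε]
    exact mul_le_mul_of_nonneg_left (h y hy) (hw0 y)

/-- parametric integrals, with locally uniform compact supports -/
theorem cont_param {Y Z : Type*} [TopologicalSpace Y] [TopologicalSpace Z] [MeasurableSpace Z]
    [OpensMeasurableSpace Z] [LocallyCompactSpace Y] [FirstCountableTopology Y]
    {μ : Measure Z} [IsFiniteMeasureOnCompacts μ] [IsLocallyFiniteMeasure μ] {k : Y → Z → ℝ}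
    (hk : Continuous fun p : Y × Z => k p.1 p.2)
    (hs : ∀ C : Set Y, IsCompact C → ∃ K : Set Z, IsCompact K ∧ ∀ y ∈ C, ∀ z, z ∉ K → k y z = 0) :
    Continuous fun y => ∫ z, k y z ∂μ := by
  rw [continuous_iff_continuousAt]
  intro y₀
  obtain ⟨C, hC, hCy⟩ := exists_compact_mem_nhds y₀
  obtain ⟨K, hK, hK0⟩ := hs C hC
  have h1 : Continuous fun y => ∫ z in K, k y z ∂μ :=
    continuous_parametric_integral_of_continuous (f := k) hk hK
  refine (h1.continuousAt (x := y₀)).congr ?_
  filter_upwards [hCy] with y hy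
  exact setIntegral_eq_integral_of_forall_compl_eq_zero (fun z hz => hK0 y hy z hz)

/-- equality everywhere of continuous functions which agree after integration -/
theorem eq_const_of_integral {Y : Type*} [TopologicalSpace Y] [MeasurableSpace Y]
    [OpensMeasurableSpace Y] [LocallyCompactSpace Y] [T2Space Y]
    {μ : Measure Y} [IsFiniteMeasureOnCompacts μ] [μ.IsOpenPosMeasure]
    {u : Y → ℝ} (hu : Continuous u) (k : ℝ)
    (h : ∀ f : Y → ℝ, Continuous f → HasCompactSupport f → ∫ y, f y * u y ∂μ = k * ∫ y, f y ∂μ)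
    (x : Y) : u x = k := by
  obtain ⟨b, hb, hbc, hb1, hb0, -, -⟩ := exists_bump (isCompact_singleton (x := x)) isOpen_univ
    (subset_univ _)
  have e1 := h (fun y => b y * (u y - k)) (hb.mul (hu.sub continuous_const)) (hbc.mul_right)
  have i1 : Integrable (fun y => b y * (u y - k) * u y) μ :=
    ((hb.mul (hu.sub continuous_const)).mul hu).integrable_of_hasCompactSupport
      (hbc.mul_right.mul_right)
  have i2 : Integrable (fun y => b y * (u y - k)) μ :=
    (hb.mul (hu.sub continuous_const)).integrable_of_hasCompactSupport (hbc.mul_right)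
  by_contra hx
  have hpos : 0 < ∫ y, b y * (u y - k) ^ 2 ∂μ := by
    refine Continuous.integral_pos_of_hasCompactSupport_nonneg_nonzero (x := x)
      (hb.mul ((hu.sub continuous_const).pow 2)) (hbc.mul_right)
      (fun y => mul_nonneg (hb0 y) (sq_nonneg _)) ?_
    rw [hb1 x rfl]
    simpa using sub_ne_zero.2 hx
  have e2 : ∫ y, b y * (u y - k) ^ 2 ∂μ
      = ∫ y, b y * (u y - k) * u y ∂μ - k * ∫ y, b y * (u y - k) ∂μ := by
    rw [← integral_const_mul, ← integral_sub i1 (i2.const_mul k)]
    exact integral_congr_ae (Eventually.of_forall fun y => by ring)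
  rw [e2, e1, sub_self] at hpos
  exact lt_irrefl _ hpos

end Pool.Agent.X211.Sch
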